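import Pool.Agent.L7lead.LA.Stm

/-!
# Project LA (lead; MP_92d530_an): the Laplacian of a cell
-/

set_option autoImplicit false
set_option linter.all false

namespace Pool.Agent.L7h60.LA

open MeasureTheory Pool.Agent.L7lead.LA

/-- second derivative of a product of three functions -/
lemma deriv2_mul (W H C W1 H1 C1 : ℝ → ℝ) (w2 h2 c2 : ℝ) (hW : ∀ t, HasDerivAt W (W1 t) t)
    (hH : ∀ t, HasDerivAt H (H1 t) t) (hC : ∀ t, HasDerivAt C (C1 t) t)
    (hW1 : HasDerivAt W1 w2 0) (hH1 : HasDerivAt H1 h2 0) (hC1 : HasDerivAt C1 c2 0) :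
    deriv (deriv (fun t => W t * (H t * C t))) 0 =
      w2 * (H 0 * C 0) + W 0 * (h2 * C 0) + W 0 * (H 0 * c2) + 2 * (W1 0 * (H1 0 * C 0)) +
      2 * (W1 0 * (H 0 * C1 0)) + 2 * (W 0 * (H1 0 * C1 0)) := by
  have h1 : deriv (fun t => W t * (H t * C t)) =
      fun t => W1 t * (H t * C t) + W t * (H1 t * C t + H t * C1 t) := by
    funext t
    exact ((hW t).mul ((hH t).mul (hC t))).deriv
  rw [h1]
  have h2' := (hW1.mul ((hH 0).mul (hC 0))).add
    ((hW 0).mul ((hH1.mul (hC 0)).add ((hH 0).mul hC1)))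
  rw [show (fun t => W1 t * (H t * C t) + W t * (H1 t * C t + H t * C1 t)) =
    ((W1 * (H * C)) + (W * ((H1 * C) + (H * C1)))) from rfl]
  rw [h2'.deriv]
  simp only [Pi.mul_apply, Pi.add_apply]
  ring

lemma normsq_line (x : E) (j : Fin 3) (t : ℝ) :
    ‖x + t • EuclideanSpace.single j (1 : ℝ)‖ ^ 2 = ‖x‖ ^ 2 + 2 * t * x j + t ^ 2 := by
  rw [norm_add_sq_real, inner_smul_right, EuclideanSpace.inner_single_right, norm_smul,
    EuclideanSpace.norm_single]
  simp
  ring

lemma coord_line (x : E) (j m : Fin 3) (t : ℝ) :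
    (x + t • EuclideanSpace.single j (1 : ℝ) : E) m = x m + if m = j then t else 0 := by
  simp [EuclideanSpace.single_apply]

/-- the weight along a line -/
lemma w_line (κ R : ℝ) (x : E) (j : Fin 3) (t : ℝ) :
    w κ R (x + t • EuclideanSpace.single j (1 : ℝ)) =
      Real.exp (-(κ * (Real.sqrt (R ^ 2 + (‖x‖ ^ 2 + 2 * t * x j + t ^ 2)) - R))) := by
  unfold w psi
  rw [normsq_line]

lemma Hc_line (h : ℝ → ℝ) (L : ℝ) (i : Fin 3 → ℤ) (x : E) (j : Fin 3) (t : ℝ) :
    Hc h L i (x + t • EuclideanSpace.single j (1 : ℝ)) =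
      (∏ m ∈ Finset.univ.erase j, h (x m / L - i m)) * h ((x j + t) / L - i j) := by
  unfold Hc
  rw [← Finset.prod_erase_mul Finset.univ _ (Finset.mem_univ j)]
  congr 1
  · refine Finset.prod_congr rfl fun m hm => ?_
    rw [coord_line, if_neg (Finset.ne_of_mem_erase hm), add_zero]
  · rw [coord_line, if_pos rfl]

lemma inner_line (k : E) (a x : E) (j : Fin 3) (t : ℝ) :
    inner ℝ k (x + t • EuclideanSpace.single j (1 : ℝ) - a) = inner ℝ k (x - a) + t * k j := by
  rw [show x + t • EuclideanSpace.single j (1 : ℝ) - a =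
    (x - a) + t • EuclideanSpace.single j (1 : ℝ) by abel, inner_add_right, inner_smul_right,
    EuclideanSpace.inner_single_right]
  simp

/-- the weight: two derivatives -/
lemma w_deriv (κ R s a : ℝ) (hn : ∀ t : ℝ, 0 < R ^ 2 + (s + 2 * t * a + t ^ 2)) :
    (∀ t : ℝ, HasDerivAt (fun t : ℝ => Real.exp (-(κ * (Real.sqrt (R ^ 2 + (s + 2 * t * a + t ^ 2)) - R))))
      (-(κ * (a + t) / Real.sqrt (R ^ 2 + (s + 2 * t * a + t ^ 2))) *
        Real.exp (-(κ * (Real.sqrt (R ^ 2 + (s + 2 * t * a + t ^ 2)) - R)))) t) ∧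
    HasDerivAt (fun t : ℝ => -(κ * (a + t) / Real.sqrt (R ^ 2 + (s + 2 * t * a + t ^ 2))) *
        Real.exp (-(κ * (Real.sqrt (R ^ 2 + (s + 2 * t * a + t ^ 2)) - R))))
      (((κ * a / Real.sqrt (R ^ 2 + s)) ^ 2 -
        κ * (1 / Real.sqrt (R ^ 2 + s) - a ^ 2 / Real.sqrt (R ^ 2 + s) ^ 3)) *
        Real.exp (-(κ * (Real.sqrt (R ^ 2 + s) - R)))) 0 := by
  have hq : ∀ t : ℝ, HasDerivAt (fun t : ℝ => R ^ 2 + (s + 2 * t * a + t ^ 2)) (2 * (a + t)) t := by
    intro t
    have h1 : HasDerivAt (fun t : ℝ => 2 * t * a) (2 * a) t := by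
      have := ((hasDerivAt_id t).const_mul 2).mul_const a
      simpa using this
    have h2 : HasDerivAt (fun t : ℝ => t ^ 2) (2 * t) t := by
      have := hasDerivAt_pow 2 t
      simpa using this
    have h3 := ((h1.const_add s).add h2).const_add (R ^ 2)
    refine h3.congr_deriv ?_
    ring
  have hs : ∀ t : ℝ, HasDerivAt (fun t : ℝ => Real.sqrt (R ^ 2 + (s + 2 * t * a + t ^ 2)))
      ((a + t) / Real.sqrt (R ^ 2 + (s + 2 * t * a + t ^ 2))) t := by
    intro t
    have h1 := (hq t).sqrt (hn t).ne'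
    refine h1.congr_deriv ?_
    have h2 : 0 < Real.sqrt (R ^ 2 + (s + 2 * t * a + t ^ 2)) := Real.sqrt_pos.2 (hn t)
    field_simp
  have hw : ∀ t : ℝ, HasDerivAt (fun t : ℝ => Real.exp (-(κ * (Real.sqrt (R ^ 2 + (s + 2 * t * a + t ^ 2)) - R))))
      (-(κ * (a + t) / Real.sqrt (R ^ 2 + (s + 2 * t * a + t ^ 2))) *
        Real.exp (-(κ * (Real.sqrt (R ^ 2 + (s + 2 * t * a + t ^ 2)) - R)))) t := by
    intro t
    have h1 := ((((hs t).sub_const R).const_mul κ).neg).exp
    refine h1.congr_deriv ?_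
    simp only [Pi.neg_apply]
    ring
  refine ⟨hw, ?_⟩
  have h0 : R ^ 2 + (s + 2 * 0 * a + 0 ^ 2) = R ^ 2 + s := by ring
  have hn0 : 0 < R ^ 2 + s := by
    have := hn 0
    rwa [h0] at this
  have hr : 0 < Real.sqrt (R ^ 2 + s) := Real.sqrt_pos.2 hn0
  have h1 : HasDerivAt (fun t : ℝ => κ * (a + t)) κ 0 := by
    have := ((hasDerivAt_id (0:ℝ)).const_add a).const_mul κ
    simpa using this
  have h2 := h1.div (hs 0) (by rw [h0]; exact hr.ne')
  have h3 := h2.neg.mul (hw 0)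
  refine h3.congr_deriv ?_
  simp only [Pi.neg_apply, Pi.div_apply, h0, add_zero]
  field_simp
  ring

/-- the cut-off: two derivatives -/
lemma h_deriv (h : ℝ → ℝ) (hh : ContDiff ℝ 2 h) (c a L b : ℝ) (hL : 0 < L) :
    (∀ t : ℝ, HasDerivAt (fun t : ℝ => c * h ((a + t) / L - b)) (c * (deriv h ((a + t) / L - b) / L)) t) ∧
    HasDerivAt (fun t : ℝ => c * (deriv h ((a + t) / L - b) / L))
      (c * (deriv (deriv h) (a / L - b) / L ^ 2)) 0 := by
  have hl : ∀ t : ℝ, HasDerivAt (fun t : ℝ => (a + t) / L - b) (1 / L) t := by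
    intro t
    have := (((hasDerivAt_id t).const_add a).div_const L).sub_const b
    simpa using this
  have hd : Differentiable ℝ h := hh.differentiable (by norm_num)
  have hd2 : Differentiable ℝ (deriv h) := by
    have h1 : ContDiff ℝ 1 (deriv h) := by
      have := (contDiff_succ_iff_deriv (n := 1) (f := h)).1 (by exact_mod_cast hh)
      exact this.2.2
    exact h1.differentiable (by norm_num)
  constructor
  · intro t
    have h1 := ((hd ((a + t) / L - b)).hasDerivAt.comp t (hl t)).const_mul c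
    refine h1.congr_deriv ?_
    ring
  · have h1 := ((((hd2 ((a + 0) / L - b)).hasDerivAt.comp (0:ℝ) (hl 0))).div_const L).const_mul c
    refine h1.congr_deriv ?_
    rw [add_zero]
    field_simp

/-- the cosine: two derivatives -/
lemma c_deriv (θ b : ℝ) :
    (∀ t : ℝ, HasDerivAt (fun t : ℝ => Real.cos (θ + t * b)) (-(b * Real.sin (θ + t * b))) t) ∧
    HasDerivAt (fun t : ℝ => -(b * Real.sin (θ + t * b))) (-(b ^ 2 * Real.cos θ)) 0 := by
  have hl : ∀ t : ℝ, HasDerivAt (fun t : ℝ => θ + t * b) b t := by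
    intro t
    have := ((hasDerivAt_id t).mul_const b).const_add θ
    simpa using this
  constructor
  · intro t
    refine ((hl t).cos).congr_deriv ?_
    ring
  · refine (((hl 0).sin).const_mul b).neg.congr_deriv ?_
    rw [zero_mul, add_zero]
    ring

lemma cell_contDiff (h : ℝ → ℝ) (hh : ContDiff ℝ 2 h) (κ R L : ℝ) (hR : 0 < R) (hL : 0 < L)
    (k : E) (i : Fin 3 → ℤ) : ContDiff ℝ 2 (cell κ R L h k i) := by
  have h1 : ContDiff ℝ 2 (w κ R) := by
    unfold w psi
    refine Real.contDiff_exp.comp (ContDiff.neg (contDiff_const.mul (ContDiff.sub ?_ contDiff_const)))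
    refine ContDiff.sqrt (contDiff_const.add (contDiff_id.norm_sq ℝ)) fun x => ?_
    positivity
  have h2 : ContDiff ℝ 2 (Hc h L i) := by
    unfold Hc
    refine contDiff_prod fun j _ => hh.comp ?_
    refine ContDiff.sub (ContDiff.div_const ?_ L) contDiff_const
    exact (EuclideanSpace.proj (𝕜 := ℝ) j).contDiff
  have h3 : ContDiff ℝ 2 (fun x : E => Real.cos (inner ℝ k (x - L • pt i))) := by
    refine Real.contDiff_cos.comp ?_
    exact contDiff_const.inner ℝ (contDiff_id.sub contDiff_const)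
  exact h1.mul (h2.mul h3)

/-- **CE1** -/
theorem t_CE1 (hLPD : S_LPD) : S_CE1 := by
  intro h B hB κ R L hR hL k i
  have hc := cell_contDiff h hB.smooth κ R L hR hL k i
  refine ⟨hc, fun x => ?_⟩
  rw [hLPD _ hc x]
  unfold gcell
  rw [Finset.mul_sum]
  refine Finset.sum_congr rfl fun j _ => ?_
  have hn : ∀ t : ℝ, 0 < R ^ 2 + (‖x‖ ^ 2 + 2 * t * x j + t ^ 2) := by
    intro t
    rw [← normsq_line x j t]
    positivity
  have e1 : (fun t : ℝ => cell κ R L h k i (x + t • EuclideanSpace.single j (1 : ℝ))) =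
      fun t : ℝ => Real.exp (-(κ * (Real.sqrt (R ^ 2 + (‖x‖ ^ 2 + 2 * t * x j + t ^ 2)) - R))) *
        (((∏ m ∈ Finset.univ.erase j, h (x m / L - i m)) * h ((x j + t) / L - i j)) *
          Real.cos (inner ℝ k (x - L • pt i) + t * k j)) := by
    funext t
    unfold cell
    rw [w_line, Hc_line, inner_line]
  obtain ⟨hw1, hw2⟩ := w_deriv κ R (‖x‖ ^ 2) (x j) hn
  obtain ⟨hh1, hh2⟩ := h_deriv h hB.smooth (∏ m ∈ Finset.univ.erase j, h (x m / L - i m)) (x j) L
    (i j) hL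
  obtain ⟨hc1, hc2⟩ := c_deriv (inner ℝ k (x - L • pt i)) (k j)
  rw [e1, deriv2_mul _ _ _ _ _ _ _ _ _ hw1 hh1 hc1 hw2 hh2 hc2]
  have e2 : Hc h L i x = (∏ m ∈ Finset.univ.erase j, h (x m / L - i m)) * h (x j / L - i j) := by
    unfold Hc
    rw [Finset.prod_erase_mul Finset.univ _ (Finset.mem_univ j)]
  rw [e2]
  unfold w psi P1 P2 H1 H2
  simp only [mul_zero, zero_mul, add_zero, ne_eq, OfNat.ofNat_ne_zero, not_false_eq_true, zero_pow]
  ring

end Pool.Agent.L7h60.LA
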