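import Pool.Agent.L7lead.LA.Stm

/-!
# Project LA (lead; MP_92d530_an): `gcell + cell` is small
-/

set_option autoImplicit false
set_option linter.all false

namespace Pool.Agent.L7h60.LA

open MeasureTheory Pool.Agent.L7lead.LA

lemma abs5 (A S P Q U c s : ℝ) (hc : |c| ≤ 1) (hs : |s| ≤ 1) :
    |A * c + S * c - 2 * P * c + 2 * Q * s - 2 * U * s| ≤
      |A| + |S| + 2 * |P| + 2 * |Q| + 2 * |U| := by
  have h1 : ∀ a b : ℝ, |b| ≤ 1 → |a * b| ≤ |a| := by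
    intro a b hb
    rw [abs_mul]
    exact mul_le_of_le_one_right (abs_nonneg _) hb
  have e1 := h1 A c hc
  have e2 := h1 S c hc
  have e3 := h1 P c hc
  have e4 := h1 Q s hs
  have e5 := h1 U s hs
  rw [abs_le] at *
  constructor
  · linarith [e1.1, e2.1, e3.2, e4.1, e5.2]
  · linarith [e1.2, e2.2, e3.1, e4.2, e5.1]

/-- the difference of the gradients -/
lemma g_diff (R x a d : ℝ) (hR : 0 < R) (hx : 0 ≤ x) (ha : 0 ≤ a) (hd : |x - a| ≤ d) :
    |x ^ 2 / (R ^ 2 + x ^ 2) - a ^ 2 / (R ^ 2 + a ^ 2)| ≤ d / R := by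
  have h1 : 0 < R ^ 2 + x ^ 2 := by positivity
  have h2 : 0 < R ^ 2 + a ^ 2 := by positivity
  have hd0 : 0 ≤ d := (abs_nonneg _).trans hd
  have e1 : x ^ 2 / (R ^ 2 + x ^ 2) - a ^ 2 / (R ^ 2 + a ^ 2) =
      (R ^ 2 * ((x - a) * (x + a))) / ((R ^ 2 + x ^ 2) * (R ^ 2 + a ^ 2)) := by
    rw [div_sub_div _ _ h1.ne' h2.ne']
    congr 1
    ring
  rw [e1, abs_div, abs_of_pos (mul_pos h1 h2), abs_mul, abs_mul, abs_of_pos (by positivity : 0 < R ^ 2),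
    abs_of_nonneg (by linarith : 0 ≤ x + a), div_le_div_iff₀ (mul_pos h1 h2) hR]
  have h3 : R ^ 2 * (|x - a| * (x + a)) * R ≤ R ^ 2 * (d * (x + a)) * R := by
    refine mul_le_mul_of_nonneg_right ?_ hR.le
    refine mul_le_mul_of_nonneg_left ?_ (by positivity)
    exact mul_le_mul_of_nonneg_right hd (by linarith)
  refine h3.trans ?_
  have h4 : R ^ 2 * (d * (x + a)) * R = d * (R ^ 3 * (x + a)) := by ring
  rw [h4]
  refine mul_le_mul_of_nonneg_left ?_ hd0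
  have h5 : R ^ 3 * x ≤ (R ^ 4 + R ^ 2 * x ^ 2) / 2 := by
    have : 0 ≤ R ^ 2 * (R - x) ^ 2 := by positivity
    nlinarith
  have h6 : R ^ 3 * a ≤ (R ^ 4 + R ^ 2 * a ^ 2) / 2 := by
    have : 0 ≤ R ^ 2 * (R - a) ^ 2 := by positivity
    nlinarith
  have h7 : 0 ≤ x ^ 2 * a ^ 2 := by positivity
  have h8 : 0 ≤ R ^ 2 * x ^ 2 := by positivity
  have h9 : 0 ≤ R ^ 2 * a ^ 2 := by positivity
  nlinarith

lemma coord_le (x : E) (j : Fin 3) : |x j| ≤ ‖x‖ := by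
  have := PiLp.norm_apply_le x j
  rwa [Real.norm_eq_abs] at this

lemma norm_sq_sum (x : E) : ‖x‖ ^ 2 = ∑ j, x j ^ 2 := EuclideanSpace.real_norm_sq_eq x

lemma inner_sum (x y : E) : inner ℝ x y = ∑ j, x j * y j := by
  rw [PiLp.inner_apply]
  refine Finset.sum_congr rfl fun j _ => ?_
  simp [mul_comm]

section bounds

variable {h : ℝ → ℝ} {B : ℝ} (hB : IsBump h B) {L : ℝ} (hL : 0 < L)
include hB

lemma B_nonneg : 0 ≤ B := (abs_nonneg _).trans (hB.d1 0)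

lemma Hc_bd (i : Fin 3 → ℤ) (x : E) : 0 ≤ Hc h L i x ∧ Hc h L i x ≤ 1 := by
  unfold Hc
  exact ⟨Finset.prod_nonneg fun j _ => hB.nonneg _,
    Finset.prod_le_one (fun j _ => hB.nonneg _) fun j _ => hB.le_one _⟩

lemma pr_bd (i : Fin 3 → ℤ) (x : E) (j : Fin 3) :
    |∏ m ∈ Finset.univ.erase j, h (x m / L - i m)| ≤ 1 := by
  rw [abs_of_nonneg (Finset.prod_nonneg fun j _ => hB.nonneg _)]
  exact Finset.prod_le_one (fun j _ => hB.nonneg _) fun j _ => hB.le_one _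

include hL

lemma H1_bd (i : Fin 3 → ℤ) (j : Fin 3) (x : E) : |H1 h L i j x| ≤ B / L := by
  unfold H1
  rw [abs_mul, abs_div, abs_of_pos hL]
  have h1 := pr_bd hB (L := L) i x j
  have h2 : |deriv h (x j / L - i j)| / L ≤ B / L := div_le_div_of_nonneg_right (hB.d1 _) hL.le
  calc |∏ m ∈ Finset.univ.erase j, h (x m / L - i m)| * (|deriv h (x j / L - i j)| / L) ≤
      1 * (B / L) := mul_le_mul h1 h2 (by positivity) (by norm_num)
    _ = B / L := one_mul _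

lemma H2_bd (i : Fin 3 → ℤ) (j : Fin 3) (x : E) : |H2 h L i j x| ≤ B / L ^ 2 := by
  unfold H2
  rw [abs_mul, abs_div, abs_of_pos (by positivity : 0 < L ^ 2)]
  have h1 := pr_bd hB (L := L) i x j
  have h2 : |deriv (deriv h) (x j / L - i j)| / L ^ 2 ≤ B / L ^ 2 :=
    div_le_div_of_nonneg_right (hB.d2 _) (by positivity)
  calc |∏ m ∈ Finset.univ.erase j, h (x m / L - i m)| * (|deriv (deriv h) (x j / L - i j)| / L ^ 2) ≤
      1 * (B / L ^ 2) := mul_le_mul h1 h2 (by positivity) (by norm_num)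
    _ = B / L ^ 2 := one_mul _

lemma near (i : Fin 3 → ℤ) (x : E) (hH : Hc h L i x ≠ 0) : ‖x - L • pt i‖ ≤ 2 * L := by
  have h1 : ∀ j, |x j - L * i j| ≤ L := by
    intro j
    by_contra hlt
    push Not at hlt
    apply hH
    unfold Hc
    refine Finset.prod_eq_zero (Finset.mem_univ j) (hB.zero _ ?_)
    have e1 : x j / L - i j = (x j - L * i j) / L := by field_simp
    rw [e1, abs_div, abs_of_pos hL, le_div_iff₀ hL, one_mul]
    exact hlt.le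
  have h2 : ‖x - L • pt i‖ ^ 2 ≤ (2 * L) ^ 2 := by
    rw [norm_sq_sum]
    have h3 : ∀ j ∈ Finset.univ, (x - L • pt i : E) j ^ 2 ≤ L ^ 2 := by
      intro j _
      have e1 : (x - L • pt i : E) j = x j - L * i j := by
        simp [pt]
      rw [e1, ← sq_abs]
      exact pow_le_pow_left₀ (abs_nonneg _) (h1 j) 2
    refine (Finset.sum_le_sum h3).trans ?_
    simp only [Finset.sum_const, Finset.card_univ, Fintype.card_fin, nsmul_eq_mul]
    push_cast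
    nlinarith [sq_nonneg L]
  exact le_of_sq_le_sq h2 (by linarith)

end bounds

/-- **CE2** -/
theorem t_CE2 : S_CE2 := by
  intro h B hB κ hκ ε hε
  have hB0 : 0 ≤ B := B_nonneg hB
  set Q : ℝ := 3 * B + 6 * κ * B + 6 * (1 + κ) * B with hQ
  have hQ0 : 0 ≤ Q := by positivity
  refine ⟨max 1 (2 * Q / ε), by positivity, fun L hL => ?_⟩
  have hL1 : 1 ≤ L := (le_max_left _ _).trans hL
  have hLQ : 2 * Q / ε ≤ L := (le_max_right _ _).trans hL
  have hL0 : 0 < L := by linarith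
  set P : ℝ := 2 * κ ^ 2 * L + 3 * κ + 4 * κ * L * (1 + κ) with hP
  have hP0 : 0 ≤ P := by positivity
  refine ⟨max 1 (2 * P / ε), by positivity, fun R hR => ?_⟩
  have hR1 : 1 ≤ R := (le_max_left _ _).trans hR
  have hRP : 2 * P / ε ≤ R := (le_max_right _ _).trans hR
  have hR0 : 0 < R := by linarith
  intro k i hk x
  obtain ⟨hk1, hk2⟩ := hk
  set a : E := L • pt i with ha
  set ρ : ℝ := Real.sqrt (R ^ 2 + ‖x‖ ^ 2) with hρ
  have hρ2 : ρ ^ 2 = R ^ 2 + ‖x‖ ^ 2 := Real.sq_sqrt (by positivity)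
  have hρR : R ≤ ρ := by
    refine Real.le_sqrt_of_sq_le ?_
    have : 0 ≤ ‖x‖ ^ 2 := by positivity
    linarith
  have hρx : ‖x‖ ≤ ρ := by
    refine Real.le_sqrt_of_sq_le ?_
    have : 0 ≤ R ^ 2 := by positivity
    linarith
  have hρ0 : 0 < ρ := by linarith
  set c : ℝ := Real.cos (inner ℝ k (x - a)) with hc
  set s : ℝ := Real.sin (inner ℝ k (x - a)) with hs
  have hc1 : |c| ≤ 1 := Real.abs_cos_le_one _
  have hs1 : |s| ≤ 1 := Real.abs_sin_le_one _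
  have hw0 : 0 < w κ R x := Real.exp_pos _
  set H : ℝ := Hc h L i x with hH
  have hH01 := Hc_bd hB (L := L) i x
  rw [← hH] at hH01
  -- the norm of k
  have hkn : ‖k‖ ≤ 1 + κ := by
    refine le_of_sq_le_sq ?_ (by linarith)
    rw [hk2]
    have h1 : (κ * ‖a‖) ^ 2 / (R ^ 2 + ‖a‖ ^ 2) ≤ κ ^ 2 := by
      rw [div_le_iff₀ (by positivity), mul_pow]
      have : 0 ≤ κ ^ 2 * R ^ 2 := by positivity
      nlinarith
    nlinarith
  have hkj : ∀ j, |k j| ≤ 1 + κ := fun j => (coord_le k j).trans hkn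
  -- P1
  have hP1 : ∀ j, |P1 κ R j x| ≤ κ := by
    intro j
    unfold P1
    rw [← hρ, abs_div, abs_of_pos hρ0, abs_mul, abs_of_nonneg hκ, div_le_iff₀ hρ0]
    exact mul_le_mul_of_nonneg_left ((coord_le x j).trans hρx) hκ
  have hsum : ∀ f : Fin 3 → ℝ, ∀ b : ℝ, (∀ j, |f j| ≤ b) → |∑ j, f j| ≤ 3 * b := by
    intro f b hf
    refine (Finset.abs_sum_le_sum_abs _ _).trans ?_
    refine (Finset.sum_le_sum fun j _ => hf j).trans ?_
    simp
  -- the five terms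
  have b2 : |∑ j, H2 h L i j x| ≤ 3 * (B / L ^ 2) := hsum _ _ fun j => H2_bd hB hL0 i j x
  have b3 : |∑ j, P1 κ R j x * H1 h L i j x| ≤ 3 * (κ * (B / L)) := by
    refine hsum _ _ fun j => ?_
    rw [abs_mul]
    exact mul_le_mul (hP1 j) (H1_bd hB hL0 i j x) (abs_nonneg _) hκ
  have b5 : |∑ j, H1 h L i j x * k j| ≤ 3 * ((B / L) * (1 + κ)) := by
    refine hsum _ _ fun j => ?_
    rw [abs_mul]
    exact mul_le_mul (H1_bd hB hL0 i j x) (hkj j) (abs_nonneg _) (by positivity)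
  have hin : inner ℝ k a = 0 := by
    rw [ha, inner_smul_right, hk1, mul_zero]
  have b4 : |H * ∑ j, P1 κ R j x * k j| ≤ 2 * κ * L * (1 + κ) / R := by
    by_cases hH0 : H = 0
    · rw [hH0, zero_mul, abs_zero]
      positivity
    · have hn := near hB hL0 i x hH0
      rw [← ha] at hn
      have e1 : ∑ j, P1 κ R j x * k j = κ * inner ℝ k (x - a) / ρ := by
        rw [inner_sub_right, hin, sub_zero, inner_sum, Finset.mul_sum, Finset.sum_div]
        refine Finset.sum_congr rfl fun j _ => ?_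
        unfold P1
        rw [← hρ]
        ring
      have h1 : |inner ℝ k (x - a)| ≤ (1 + κ) * (2 * L) :=
        (abs_real_inner_le_norm _ _).trans (mul_le_mul hkn hn (norm_nonneg _) (by linarith))
      rw [abs_mul, abs_of_nonneg hH01.1, e1, abs_div, abs_of_pos hρ0, abs_mul, abs_of_nonneg hκ]
      have h2 : κ * |inner ℝ k (x - a)| / ρ ≤ κ * ((1 + κ) * (2 * L)) / R :=
        div_le_div₀ (by positivity) (mul_le_mul_of_nonneg_left h1 hκ) hR0 hρR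
      calc H * (κ * |inner ℝ k (x - a)| / ρ) ≤ 1 * (κ * |inner ℝ k (x - a)| / ρ) :=
            mul_le_mul_of_nonneg_right hH01.2 (by positivity)
        _ ≤ κ * ((1 + κ) * (2 * L)) / R := by rw [one_mul]; exact h2
        _ = 2 * κ * L * (1 + κ) / R := by ring
  have b1 : |(∑ j, P1 κ R j x ^ 2 - ∑ j, P2 κ R j x + 1 - ∑ j, k j ^ 2) * H| ≤
      (2 * κ ^ 2 * L + 3 * κ) / R := by
    by_cases hH0 : H = 0
    · rw [hH0, mul_zero, abs_zero]
      positivity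
    · have hn := near hB hL0 i x hH0
      rw [← ha] at hn
      have e1 : ∑ j, P1 κ R j x ^ 2 = κ ^ 2 * (‖x‖ ^ 2 / (R ^ 2 + ‖x‖ ^ 2)) := by
        rw [← hρ2]
        nth_rewrite 1 [norm_sq_sum]
        rw [Finset.sum_div, Finset.mul_sum]
        refine Finset.sum_congr rfl fun j _ => ?_
        unfold P1
        rw [← hρ, div_pow, mul_pow]
        ring
      have e2 : ∑ j, k j ^ 2 = 1 + κ ^ 2 * (‖a‖ ^ 2 / (R ^ 2 + ‖a‖ ^ 2)) := by
        rw [← norm_sq_sum, hk2, mul_pow]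
        ring
      have e3 : ∑ j, P2 κ R j x = κ * (3 / ρ - ‖x‖ ^ 2 / ρ ^ 3) := by
        unfold P2
        rw [← hρ, norm_sq_sum x]
        simp only [Fin.sum_univ_three]
        ring
      have h1 : |‖x‖ ^ 2 / (R ^ 2 + ‖x‖ ^ 2) - ‖a‖ ^ 2 / (R ^ 2 + ‖a‖ ^ 2)| ≤ 2 * L / R :=
        g_diff R ‖x‖ ‖a‖ (2 * L) hR0 (norm_nonneg _) (norm_nonneg _)
          ((abs_norm_sub_norm_le x a).trans hn)
      have h2 : |κ * (3 / ρ - ‖x‖ ^ 2 / ρ ^ 3)| ≤ 3 * κ / R := by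
        have h3 : 0 ≤ 3 / ρ - ‖x‖ ^ 2 / ρ ^ 3 := by
          have h4 : ‖x‖ ^ 2 / ρ ^ 3 ≤ 1 / ρ := by
            rw [div_le_div_iff₀ (by positivity) hρ0, one_mul]
            have : ‖x‖ ^ 2 ≤ ρ ^ 2 := pow_le_pow_left₀ (norm_nonneg _) hρx 2
            calc ‖x‖ ^ 2 * ρ ≤ ρ ^ 2 * ρ := mul_le_mul_of_nonneg_right this hρ0.le
              _ = ρ ^ 3 := by ring
          have h5 : 0 < 1 / ρ := by positivity
          have h6 : 3 / ρ = 3 * (1 / ρ) := by ring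
          rw [h6]
          linarith
        have h4 : 3 / ρ - ‖x‖ ^ 2 / ρ ^ 3 ≤ 3 / R := by
          have h5 : 3 / ρ ≤ 3 / R := div_le_div_of_nonneg_left (by norm_num) hR0 hρR
          have h6 : 0 ≤ ‖x‖ ^ 2 / ρ ^ 3 := by positivity
          linarith
        rw [abs_of_nonneg (mul_nonneg hκ h3)]
        calc κ * (3 / ρ - ‖x‖ ^ 2 / ρ ^ 3) ≤ κ * (3 / R) := mul_le_mul_of_nonneg_left h4 hκ
          _ = 3 * κ / R := by ring
      rw [e1, e2, e3, abs_mul, abs_of_nonneg hH01.1]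
      have e4 : κ ^ 2 * (‖x‖ ^ 2 / (R ^ 2 + ‖x‖ ^ 2)) - κ * (3 / ρ - ‖x‖ ^ 2 / ρ ^ 3) + 1 -
          (1 + κ ^ 2 * (‖a‖ ^ 2 / (R ^ 2 + ‖a‖ ^ 2))) =
          κ ^ 2 * (‖x‖ ^ 2 / (R ^ 2 + ‖x‖ ^ 2) - ‖a‖ ^ 2 / (R ^ 2 + ‖a‖ ^ 2)) -
            κ * (3 / ρ - ‖x‖ ^ 2 / ρ ^ 3) := by ring
      rw [e4]
      have h3 : |κ ^ 2 * (‖x‖ ^ 2 / (R ^ 2 + ‖x‖ ^ 2) - ‖a‖ ^ 2 / (R ^ 2 + ‖a‖ ^ 2)) -
            κ * (3 / ρ - ‖x‖ ^ 2 / ρ ^ 3)| ≤ κ ^ 2 * (2 * L / R) + 3 * κ / R := by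
        refine (abs_sub _ _).trans (add_le_add ?_ h2)
        rw [abs_mul, abs_of_nonneg (by positivity : 0 ≤ κ ^ 2)]
        exact mul_le_mul_of_nonneg_left h1 (by positivity)
      calc |κ ^ 2 * (‖x‖ ^ 2 / (R ^ 2 + ‖x‖ ^ 2) - ‖a‖ ^ 2 / (R ^ 2 + ‖a‖ ^ 2)) -
            κ * (3 / ρ - ‖x‖ ^ 2 / ρ ^ 3)| * H ≤ (κ ^ 2 * (2 * L / R) + 3 * κ / R) * 1 :=
            mul_le_mul h3 hH01.2 hH01.1 (by positivity)
        _ = (2 * κ ^ 2 * L + 3 * κ) / R := by ring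
  -- the identity
  have key : gcell κ R L h k i x + cell κ R L h k i x = w κ R x *
      (((∑ j, P1 κ R j x ^ 2 - ∑ j, P2 κ R j x + 1 - ∑ j, k j ^ 2) * H) * c +
        (∑ j, H2 h L i j x) * c - 2 * (∑ j, P1 κ R j x * H1 h L i j x) * c +
        2 * (H * ∑ j, P1 κ R j x * k j) * s - 2 * (∑ j, H1 h L i j x * k j) * s) := by
    unfold gcell cell
    rw [← ha, ← hc, ← hs, ← hH]
    simp only [Fin.sum_univ_three]
    ring
  rw [key, abs_mul, abs_of_pos hw0, mul_comm]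
  refine mul_le_mul_of_nonneg_right ?_ hw0.le
  refine (abs5 _ _ _ _ _ c s hc1 hs1).trans ?_
  have t1 : 3 * (B / L ^ 2) ≤ 3 * B / L := by
    have h1 : B / L ^ 2 ≤ B / L := div_le_div_of_nonneg_left hB0 hL0 (by nlinarith)
    calc 3 * (B / L ^ 2) ≤ 3 * (B / L) := by linarith
      _ = 3 * B / L := by ring
  have t2 : 3 * B / L + 2 * (3 * (κ * (B / L))) + 2 * (3 * ((B / L) * (1 + κ))) = Q / L := by
    rw [hQ]
    ring
  have t3 : Q / L ≤ ε / 2 := by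
    rw [div_le_iff₀ hL0]
    rw [div_le_iff₀ hε] at hLQ
    linarith
  have t4 : (2 * κ ^ 2 * L + 3 * κ) / R + 2 * (2 * κ * L * (1 + κ) / R) = P / R := by
    rw [hP]
    ring
  have t5 : P / R ≤ ε / 2 := by
    rw [div_le_iff₀ hR0]
    rw [div_le_iff₀ hε] at hRP
    linarith
  linarith

end Pool.Agent.L7h60.LA
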